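import Pool.Agent.TV17.Lemma

set_option autoImplicit false

namespace Pool.Agent.TW17

open Pool.Agent.TV17

/-- every set with at most `t` elements is missed by a member -/
def Missed (F : Set (Finset ℕ)) (t : ℕ) : Prop :=
  ∀ T : Finset ℕ, T.card ≤ t → ∃ D ∈ F, ∀ z ∈ T, z ∉ D

lemma no_pattern {m : ℕ} (F : Set (Finset ℕ)) (hF : SevenTwoCoverable F)
    (M : Fin 7 → Finset ℕ) (hM : ∀ i, M i ∈ F) (pat : Fin m → Finset (Fin 7))
    (meet : ∀ a b : Fin m, ∃ i : Fin 7, i ∈ pat a ∧ i ∈ pat b)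
    (key : ∀ z : ℕ, ∃ a : Fin m, ∀ i ∈ pat a, z ∉ M i) : False := by
  classical
  obtain ⟨x, y, hxy⟩ := hF (Finset.univ.image M) (by
      intro D hD
      simp only [Finset.coe_image, Finset.coe_univ, Set.image_univ, Set.mem_range] at hD
      obtain ⟨i, rfl⟩ := hD
      exact hM i)
    (Finset.card_image_le.trans (by simp))
  obtain ⟨a, ha⟩ := key x
  obtain ⟨b, hb⟩ := key y
  obtain ⟨i, hia, hib⟩ := meet a b
  rcases hxy (M i) (Finset.mem_image_of_mem _ (Finset.mem_univ i)) with h | h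
  · exact ha i hia h
  · exact hb i hib h

/-- triangle transport -/
lemma triangle (x y z k1 k2 k3 : ℕ) (h1 : x ≤ k1 + k2) (h2 : y ≤ k1 + k3) (h3 : z ≤ k2 + k3)
    (h : x + y + z ≤ k1 + k2 + k3) :
    ∃ x1 x2 y1 y3 z2 z3 : ℕ, x1 + x2 = x ∧ y1 + y3 = y ∧ z2 + z3 = z ∧
      x1 + y1 ≤ k1 ∧ x2 + z2 ≤ k2 ∧ y3 + z3 ≤ k3 := by
  obtain ⟨x1, hx1, hx1'⟩ : ∃ x1 : ℕ, (x ≤ k2 + x1 ∧ x + z ≤ k2 + k3 + x1) ∧
      (x1 ≤ x ∧ x1 ≤ k1 ∧ x1 + y ≤ k1 + k3) := by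
    by_cases hA : x ≤ k2
    · by_cases hB : x + z ≤ k2 + k3
      · exact ⟨0, by omega, by omega⟩
      · exact ⟨x + z - (k2 + k3), by omega, by omega⟩
    · by_cases hB : x + z ≤ k2 + k3 + (x - k2)
      · exact ⟨x - k2, by omega, by omega⟩
      · exact ⟨x + z - (k2 + k3), by omega, by omega⟩
  by_cases hy : y ≤ k1 - x1
  · refine ⟨x1, x - x1, y, 0, z - k3, z - (z - k3), ?_, ?_, ?_, ?_, ?_, ?_⟩ <;> omega
  · refine ⟨x1, x - x1, k1 - x1, y - (k1 - x1), z - (k3 - (y - (k1 - x1))),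
      z - (z - (k3 - (y - (k1 - x1)))), ?_, ?_, ?_, ?_, ?_, ?_⟩ <;> omega

lemma split2 (R : Finset ℕ) (x1 x2 : ℕ) (h : R.card ≤ x1 + x2) :
    ∃ P Q : Finset ℕ, (∀ z ∈ R, z ∈ P ∨ z ∈ Q) ∧ P ⊆ R ∧ Q ⊆ R ∧ P.card ≤ x1 ∧ Q.card ≤ x2 := by
  classical
  obtain ⟨P, hP, hc⟩ := Finset.exists_subset_card_eq (s := R) (n := min x1 R.card)
    (min_le_right _ _)
  refine ⟨P, R \ P, ?_, hP, Finset.sdiff_subset, ?_, ?_⟩
  · intro z hz
    by_cases h : z ∈ P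
    · exact Or.inl h
    · exact Or.inr (Finset.mem_sdiff.2 ⟨hz, h⟩)
  · rw [hc]; exact min_le_left _ _
  · have := Finset.card_sdiff_add_card_eq_card hP
    rcases le_total x1 R.card with h' | h'
    · rw [min_eq_left h'] at hc; omega
    · rw [min_eq_right h'] at hc; omega

lemma split3 (R : Finset ℕ) (x1 x2 x3 : ℕ) (h : R.card ≤ x1 + x2 + x3) :
    ∃ P Q S : Finset ℕ, (∀ z ∈ R, z ∈ P ∨ z ∈ Q ∨ z ∈ S) ∧ P ⊆ R ∧ Q ⊆ R ∧ S ⊆ R ∧
      P.card ≤ x1 ∧ Q.card ≤ x2 ∧ S.card ≤ x3 := by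
  classical
  obtain ⟨P, Q, h1, hP, hQ, hP', hQ'⟩ := split2 R x1 (x2 + x3) (by omega)
  obtain ⟨Q1, Q2, h2, hQ1, hQ2, hQ1', hQ2'⟩ := split2 Q x2 x3 hQ'
  refine ⟨P, Q1, Q2, ?_, hP, hQ1.trans hQ, hQ2.trans hQ, hP', hQ1', hQ2'⟩
  intro z hz
  rcases h1 z hz with h | h
  · exact Or.inl h
  · rcases h2 z h with h | h
    · exact Or.inr (Or.inl h)
    · exact Or.inr (Or.inr h)

lemma card_un2 (P Q : Finset ℕ) (p q : ℕ) (hp : P.card ≤ p) (hq : Q.card ≤ q) :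
    (P ∪ Q).card ≤ p + q := (Finset.card_union_le P Q).trans (Nat.add_le_add hp hq)

/-- a subset of `R` of prescribed size containing `S` -/
lemma between (S R : Finset ℕ) (n : ℕ) (hSR : S ⊆ R) (h1 : S.card ≤ n) (h2 : n ≤ R.card) :
    ∃ P : Finset ℕ, S ⊆ P ∧ P ⊆ R ∧ P.card = n :=
  Finset.exists_subsuperset_card_eq hSR h1 h2

/-- the six regions of three sets without a common point -/
lemma card_regions (A B C : Finset ℕ) (hABC : A ∩ B ∩ C = ∅) :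
    (A \ (B ∪ C)).card + (A ∩ B).card + (A ∩ C).card = A.card := by
  classical
  have h1 : (A \ (B ∪ C)).card + (A ∩ (B ∪ C)).card = A.card :=
    Finset.card_sdiff_add_card_inter _ _
  have h2 : (A ∩ (B ∪ C)) = (A ∩ B) ∪ (A ∩ C) := Finset.inter_union_distrib_left _ _ _
  have h3 : Disjoint (A ∩ B) (A ∩ C) := by
    rw [Finset.disjoint_left]
    intro z hz hz'
    have : z ∈ A ∩ B ∩ C := by
      simp only [Finset.mem_inter] at hz hz' ⊢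
      exact ⟨hz, hz'.2⟩
    rw [hABC] at this
    simp at this
  rw [h2, Finset.card_union_of_disjoint h3] at h1
  omega

end Pool.Agent.TW17
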