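import Pool.Agent.TW17.Steps

set_option autoImplicit false

namespace Pool.Agent.TW17

open Pool.Agent.TV17

lemma pads (k t g c al c21 : ℕ) (ht : 87 * k + 401 ≤ 100 * t) (hg2 : 100 * g ≤ 52 * k + 100)
    (hg1 : 52 * k < 100 * g) (hcs : 100 * c < 17 * k) (h21 : c21 ≤ c) (htk : t ≤ k)
    (hal : al + (t - g) + c ≤ k) (hclose : 48 * k ≤ 100 * al) :
    ∃ ma mb m : ℕ, al + c ≤ ma ∧ g ≤ ma ∧ al + c21 ≤ mb ∧ g ≤ mb ∧ ma ≤ k ∧ mb ≤ k ∧
      m + al + c + c21 = ma + mb ∧ m ≤ t ∧ c + c21 ≤ t - m ∧ t - m ≤ k ∧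
      (m = al ∨ (al ≤ g ∧ m ≤ g) ∨ (al ≤ g ∧ m + al ≤ 2 * g)) := by
  by_cases h1 : g ≤ al + c
  · by_cases h2 : g ≤ al + c21
    · exact ⟨al + c, al + c21, al, by omega, by omega, by omega, by omega, by omega, by omega,
        by omega, by omega, by omega, by omega, by omega⟩
    · exact ⟨al + c, g, g - c21, by omega, by omega, by omega, by omega, by omega, by omega,
        by omega, by omega, by omega, by omega, by omega⟩
  · exact ⟨g, g, 2 * g - (al + c + c21), by omega, by omega, by omega, by omega, by omega,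
      by omega, by omega, by omega, by omega, by omega, by omega⟩

lemma last (k t g c al m be n3 n4 a3 b3 : ℕ) (ht : 87 * k + 401 ≤ 100 * t)
    (hg2 : 100 * g ≤ 52 * k + 100) (hcs : 100 * c < 17 * k) (htk : t ≤ k)
    (hgt : g ≤ t) (hmt : m ≤ t) (halt : al ≤ t)
    (hal : al + (t - g) + c ≤ k)
    (hm : m = al ∨ (al ≤ g ∧ m ≤ g) ∨ (al ≤ g ∧ m + al ≤ 2 * g))
    (hbe : be + (t - m) ≤ k)
    (hn3 : n3 = al ∨ n3 + g + 2 * c = t) (hn4 : n4 = be ∨ n4 + al = t)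
    (ha3 : a3 + n3 ≤ al) (hb3 : b3 + n4 ≤ be) : a3 + b3 ≤ t := by
  have hal' : al + t + c ≤ k + g := by omega
  have hbe' : be + t ≤ k + m := by omega
  clear hal hbe
  rcases hn3 with h | h <;> rcases hn4 with h' | h' <;> rcases hm with h'' | h'' | h'' <;> omega

/-- The case of small far intersections: two clusters. -/
theorem end_case (F : Set (Finset ℕ)) (hF : SevenTwoCoverable F) (k t : ℕ)
    (hk : ∀ A ∈ F, A.card = k) (H : Missed F t) (ht : 87 * k + 401 ≤ 100 * t) (htk : t ≤ k)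
    (c : ℕ) (hmax : ∀ A ∈ F, ∀ B ∈ F, 100 * (A ∩ B).card < 48 * k → (A ∩ B).card ≤ c)
    (A1 B1 : Finset ℕ) (hA1 : A1 ∈ F) (hB1 : B1 ∈ F) (hc : (A1 ∩ B1).card = c)
    (hcs : 100 * c < 17 * k) : False := by
  classical
  obtain ⟨g, hg1, hg2⟩ : ∃ g : ℕ, 52 * k < 100 * g ∧ 100 * g ≤ 52 * k + 100 :=
    ⟨52 * k / 100 + 1, by omega, by omega⟩
  have far : ∀ A ∈ F, ∀ D ∈ F, (A ∩ D).card + g ≤ k → (A ∩ D).card ≤ c :=
    fun A hA D hD h => hmax A hA D hD (by omega)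
  obtain ⟨A2, hA2, e121, hal, h21⟩ := stepA2 F k t hk H A1 B1 hA1 hB1 c g hc
    (by omega) (by omega) (by omega) (by omega)
  have f21 := far B1 hB1 A2 hA2 h21
  obtain ⟨al, hal'⟩ : ∃ al : ℕ, (A1 ∩ A2).card = al := ⟨_, rfl⟩
  obtain ⟨c21, hc21⟩ : ∃ c21 : ℕ, (B1 ∩ A2).card = c21 := ⟨_, rfl⟩
  rw [hal'] at hal
  rw [hc21] at f21
  have hclose : 48 * k ≤ 100 * al := by
    by_contra hcon
    have h1 : (A1 ∩ A2).card ≤ c := hmax A1 hA1 A2 hA2 (by omega)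
    rw [hal'] at h1
    refine win1 F hF k t hk H A1 B1 A2 hA1 hB1 hA2 ?_ c al c21 hc hal' hc21
      (by omega) (by omega) (by omega) (by omega) (by omega) (by omega) (by omega) (by omega)
    rw [Finset.eq_empty_iff_forall_notMem]
    intro z hz
    simp only [Finset.mem_inter] at hz
    exact e121 z hz.1.1 hz.2 hz.1.2
  obtain ⟨ma, mb, m, p1, p2, p3, p4, p5, p6, p7, p8, p9, p10, p11⟩ :=
    pads k t g c al c21 ht hg2 hg1 hcs f21 htk hal hclose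
  obtain ⟨B2, hB2, e122, eB, h12, h22, hbe⟩ := stepB2 F k t hk H A1 A2 B1 hA1 hA2 hB1 al c c21
    ma mb m g e121 hal' hc hc21 p1 p2 p3 p4 p5 p6 p7 p8 p9 p10
  have f12 := far A1 hA1 B2 hB2 h12
  have f22 := far A2 hA2 B2 hB2 h22
  obtain ⟨be, hbe'⟩ : ∃ be : ℕ, (B1 ∩ B2).card = be := ⟨_, rfl⟩
  rw [hbe'] at hbe
  have hK1 : ((A1 ∪ A2) ∩ B1).card ≤ g := by
    have h1 : (A1 ∪ A2) ∩ B1 = (A1 ∩ B1) ∪ (B1 ∩ A2) := by
      ext z; simp; tauto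
    rw [h1]
    have := card_un2 _ _ _ _ hc.le hc21.le
    clear p1 p2 p3 p4 p5 p6 p7 p8 p9 p10 p11
    omega
  have hK2 : ((A1 ∪ A2) ∩ B2).card ≤ 2 * c := by
    have h1 : (A1 ∪ A2) ∩ B2 = (A1 ∩ B2) ∪ (A2 ∩ B2) := by
      ext z; simp; tauto
    rw [h1]
    have := card_un2 _ _ _ _ f12 f22
    omega
  obtain ⟨n3, hn3a, hn3b, hn3c⟩ : ∃ n3 : ℕ, n3 ≤ al ∧ g + 2 * c + n3 ≤ t ∧
      (n3 = al ∨ n3 + g + 2 * c = t) := by
    clear p1 p2 p3 p4 p5 p6 p7 p8 p9 p10 p11 hbe hK1 hK2 f12 f22 h12 h22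
    by_cases h : al ≤ t - g - 2 * c
    · exact ⟨al, by omega, by omega, by omega⟩
    · exact ⟨t - g - 2 * c, by omega, by omega, by omega⟩
  obtain ⟨A3, hA3, eA31, eA32, h13, ha3⟩ := stepA3 F k t hk H A1 A2 B1 B2 hB1 al c g n3 hal'
    hK1 hK2 (by clear p1 p2 p3 p4 p5 p6 p7 p8 p9 p10 p11; omega) hn3a hn3b
  have f13 := far B1 hB1 A3 hA3 h13
  have halt : al + c ≤ t := by
    clear p1 p2 p3 p4 p5 p6 p7 p8 p9 p10 p11 hbe hK1 hK2 f12 f22 h12 h22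
    omega
  obtain ⟨n4, hn4a, hn4b, hn4c, hn4d⟩ : ∃ n4 : ℕ, n4 ≤ be ∧ al + n4 ≤ t ∧
      (n4 = be ∨ n4 + al = t) ∧ (n4 = be ∨ c ≤ n4) := by
    clear p1 p2 p3 p4 p5 p6 p7 p8 p9 p10 p11 hbe hK1 hK2 f12 f22 h12 h22
    by_cases h : be ≤ t - al
    · exact ⟨be, by omega, by omega, by omega, by omega⟩
    · exact ⟨t - al, by omega, by omega, by omega, by omega⟩
  have h312 : ((B1 ∩ A3) ∩ (B1 ∩ B2)).card ≤ n4 := by
    rcases hn4d with h | h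
    · rw [h, ← hbe']
      exact Finset.card_le_card Finset.inter_subset_right
    · exact (Finset.card_le_card Finset.inter_subset_left).trans (f13.trans h)
  obtain ⟨B3, hB3, e123, e3, hb3⟩ := stepB3 F t H A1 A2 A3 B1 B2 al be n4 hal' hbe' hn4a h312
    hn4b
  refine stepD F hF t H A1 A2 A3 B1 B2 B3 hA1 hA2 hA3 hB1 hB2 hB3 e121 e122 e123 eB eA31 eA32
    e3 ?_
  exact last k t g c al m be n3 n4 _ _ ht hg2 hcs htk
    (by clear p1 p2 p3 p4 p5 p6 p7 p8 p9 p10 p11; omega) p8 (by omega) hal p11 hbe hn3c hn4c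
    ha3 hb3

end Pool.Agent.TW17
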