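import Pool.Agent.TW17.Win1

set_option autoImplicit false

namespace Pool.Agent.TW17

open Pool.Agent.TV17

def pat4 : Fin 13 → Finset (Fin 7) :=
  ![{2, 3, 4, 6}, {1, 3, 5, 6}, {0, 3, 4, 5}, {0, 1, 6}, {0, 1, 4}, {0, 2, 6}, {0, 2, 5},
    {1, 2, 4}, {1, 2, 5}, {1, 2, 3}, {0, 2, 3}, {0, 1, 3}, {0, 1, 2}]

lemma meet4 : ∀ a b : Fin 13, ∃ i : Fin 7, i ∈ pat4 a ∧ i ∈ pat4 b := by decide

lemma card_sub_sdiff (X R P : Finset ℕ) (h : X ⊆ R \ P) (hP : P ⊆ R) :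
    X.card + P.card ≤ R.card := by
  have h1 := Finset.card_le_card h
  have h2 := Finset.card_sdiff_add_card_eq_card hP
  omega

/-- Fourth strategy: first a member missing all pairwise intersections. -/
theorem win4 (F : Set (Finset ℕ)) (hF : SevenTwoCoverable F) (k t : ℕ)
    (hk : ∀ A ∈ F, A.card = k) (H : Missed F t) (A B C : Finset ℕ)
    (hA : A ∈ F) (hB : B ∈ F) (hC : C ∈ F) (hABC : A ∩ B ∩ C = ∅)
    (c a b : ℕ) (hc : (A ∩ B).card = c) (ha : (A ∩ C).card = a) (hb : (B ∩ C).card = b)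
    (p q : ℕ) (h1 : p + a + b ≤ k) (h2 : q + b + c ≤ k) (h3 : a + b + c + p + q ≤ t)
    (h4 : k + 2 * c ≤ 2 * t + p) (h5 : k + 2 * a ≤ 2 * t + q) (h6 : k + 2 * b ≤ 2 * t)
    (h7 : k + 2 * (a + b + c) ≤ 3 * t) : False := by
  classical
  have rA := card_regions A B C hABC
  have rB := card_regions B A C (by rw [← hABC]; ext z; simp; tauto)
  have rC := card_regions C A B (by rw [← hABC]; ext z; simp; tauto)
  rw [hk A hA, hc, ha] at rA
  rw [hk B hB, Finset.inter_comm B A, hc, hb] at rB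
  rw [hk C hC, Finset.inter_comm C A, ha, Finset.inter_comm C B, hb] at rC
  set RA := A \ (B ∪ C) with hRA
  set RB := B \ (A ∪ C) with hRB
  set RC := C \ (A ∪ B) with hRC
  obtain ⟨P, hP, hPc⟩ := Finset.exists_subset_card_eq (s := RC) (n := p) (by omega)
  obtain ⟨Q, hQ, hQc⟩ := Finset.exists_subset_card_eq (s := RB) (n := q) (by omega)
  obtain ⟨D, hDF, hD⟩ := H ((A ∩ B) ∪ (A ∩ C) ∪ ((B ∩ C) ∪ (P ∪ Q))) (by
    have := card_un2 _ _ _ _ (card_un2 _ _ _ _ hc.le ha.le)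
      (card_un2 _ _ _ _ hb.le (card_un2 _ _ _ _ hPc.le hQc.le))
    omega)
  have dAB : ∀ z ∈ D, z ∈ A → z ∉ B := fun z hz hzA hzB => hD z (by simp [hzA, hzB]) hz
  have dAC : ∀ z ∈ D, z ∈ A → z ∉ C := fun z hz hzA hzC => hD z (by simp [hzA, hzC]) hz
  have dBC : ∀ z ∈ D, z ∈ B → z ∉ C := fun z hz hzB hzC => hD z (by simp [hzB, hzC]) hz
  have s1 : C ∩ D ⊆ RC \ P := by
    intro z hz
    rw [Finset.mem_inter] at hz
    have h1 : z ∉ A := fun h => dAC z hz.2 h hz.1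
    have h2 : z ∉ B := fun h => dBC z hz.2 h hz.1
    have h3 : z ∉ P := fun h => hD z (by simp [h]) hz.2
    simp [hRC, hz.1, h1, h2, h3]
  have s2 : B ∩ D ⊆ RB \ Q := by
    intro z hz
    rw [Finset.mem_inter] at hz
    have h1 : z ∉ A := fun h => dAB z hz.2 h hz.1
    have h2 : z ∉ C := fun h => dBC z hz.2 hz.1 h
    have h3 : z ∉ Q := fun h => hD z (by simp [h]) hz.2
    simp [hRB, hz.1, h1, h2, h3]
  have s3 : A ∩ D ⊆ RA := by
    intro z hz
    rw [Finset.mem_inter] at hz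
    have h1 : z ∉ B := fun h => dAB z hz.2 hz.1 h
    have h2 : z ∉ C := fun h => dAC z hz.2 hz.1 h
    simp [hRA, hz.1, h1, h2]
  have w1 := card_sub_sdiff _ _ _ s1 hP
  have w2 := card_sub_sdiff _ _ _ s2 hQ
  have w3 := Finset.card_le_card s3
  have w4 : (C ∩ D).card + (B ∩ D).card + (A ∩ D).card ≤ k := by
    have e1 : Disjoint (C ∩ D) (B ∩ D) := by
      rw [Finset.disjoint_left]
      intro z hz hz'
      rw [Finset.mem_inter] at hz hz'
      exact dBC z hz.2 hz'.1 hz.1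
    have e2 : Disjoint ((C ∩ D) ∪ (B ∩ D)) (A ∩ D) := by
      rw [Finset.disjoint_left]
      intro z hz hz'
      rw [Finset.mem_union, Finset.mem_inter, Finset.mem_inter] at hz
      rw [Finset.mem_inter] at hz'
      rcases hz with h | h
      · exact dAC z h.2 hz'.1 h.1
      · exact dAB z h.2 hz'.1 h.1
    rw [← Finset.card_union_of_disjoint e1, ← Finset.card_union_of_disjoint e2, ← hk D hDF]
    apply Finset.card_le_card
    intro z hz
    simp only [Finset.mem_union, Finset.mem_inter] at hz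
    tauto
  rw [hPc] at w1
  rw [hQc] at w2
  obtain ⟨x1, x2, y1, y3, z2, z3, hx, hy, hz, e1, e2, e3⟩ :=
    triangle (C ∩ D).card (B ∩ D).card (A ∩ D).card (t - c - a) (t - c - b) (t - a - b)
      (by omega) (by omega) (by omega) (by omega)
  obtain ⟨X1, X2, cX, -, -, pX, qX⟩ := split2 (C ∩ D) x1 x2 (by omega)
  obtain ⟨Y1, Y3, cY, -, -, pY, qY⟩ := split2 (B ∩ D) y1 y3 (by omega)
  obtain ⟨Z2, Z3, cZ, -, -, pZ, qZ⟩ := split2 (A ∩ D) z2 z3 (by omega)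
  obtain ⟨D5, hD5F, hD5⟩ := H ((A ∩ B) ∪ (B ∩ C) ∪ (X2 ∪ Z2)) (by
    have := card_un2 _ _ _ _ (card_un2 _ _ _ _ hc.le hb.le) (card_un2 _ _ _ _ qX pZ)
    omega)
  obtain ⟨D6, hD6F, hD6⟩ := H ((A ∩ C) ∪ (B ∩ C) ∪ (Y3 ∪ Z3)) (by
    have := card_un2 _ _ _ _ (card_un2 _ _ _ _ ha.le hb.le) (card_un2 _ _ _ _ qY qZ)
    omega)
  obtain ⟨D7, hD7F, hD7⟩ := H ((A ∩ B) ∪ (A ∩ C) ∪ (X1 ∪ Y1)) (by
    have := card_un2 _ _ _ _ (card_un2 _ _ _ _ hc.le ha.le) (card_un2 _ _ _ _ pX pY)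
    omega)
  refine no_pattern F hF ![A, B, C, D, D5, D6, D7] ?_ pat4 meet4 ?_
  · intro i
    fin_cases i <;> assumption
  intro z
  have u3 := use3 pat4 ![A, B, C, D, D5, D6, D7] z
  have u4 := use4 pat4 ![A, B, C, D, D5, D6, D7] z
  by_cases zA : z ∈ A <;> by_cases zB : z ∈ B <;> by_cases zC : z ∈ C
  · exfalso
    have : z ∈ A ∩ B ∩ C := by simp [zA, zB, zC]
    rw [hABC] at this
    simp at this
  · exact u4 0 2 3 4 6 rfl zC (hD z (by simp [zA, zB])) (hD5 z (by simp [zA, zB]))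
      (hD7 z (by simp [zA, zB]))
  · exact u4 1 1 3 5 6 rfl zB (hD z (by simp [zA, zC])) (hD6 z (by simp [zA, zC]))
      (hD7 z (by simp [zA, zC]))
  · by_cases zD : z ∈ D
    · rcases cZ z (by simp [zA, zD]) with h | h
      · exact u3 7 1 2 4 rfl zB zC (hD5 z (by simp [h]))
      · exact u3 8 1 2 5 rfl zB zC (hD6 z (by simp [h]))
    · exact u3 9 1 2 3 rfl zB zC zD
  · exact u4 2 0 3 4 5 rfl zA (hD z (by simp [zB, zC])) (hD5 z (by simp [zB, zC]))
      (hD6 z (by simp [zB, zC]))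
  · by_cases zD : z ∈ D
    · rcases cY z (by simp [zB, zD]) with h | h
      · exact u3 5 0 2 6 rfl zA zC (hD7 z (by simp [h]))
      · exact u3 6 0 2 5 rfl zA zC (hD6 z (by simp [h]))
    · exact u3 10 0 2 3 rfl zA zC zD
  · by_cases zD : z ∈ D
    · rcases cX z (by simp [zC, zD]) with h | h
      · exact u3 3 0 1 6 rfl zA zB (hD7 z (by simp [h]))
      · exact u3 4 0 1 4 rfl zA zB (hD5 z (by simp [h]))
    · exact u3 11 0 1 3 rfl zA zB zD
  · exact u3 12 0 1 2 rfl zA zB zC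

end Pool.Agent.TW17
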