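import Pool.Agent.TW17.Win2
import Pool.Agent.TW17.Win4

set_option autoImplicit false

namespace Pool.Agent.TW17

open Pool.Agent.TV17

/-- Three members without a common point, the pairwise intersections `b ≤ a ≤ c < 0.48 k` and
`a` not too large: impossible. -/
theorem far_case (F : Set (Finset ℕ)) (hF : SevenTwoCoverable F) (k t : ℕ)
    (hk : ∀ A ∈ F, A.card = k) (H : Missed F t) (ht : 87 * k + 401 ≤ 100 * t) (htk : t ≤ k)
    (A B C : Finset ℕ)
    (hA : A ∈ F) (hB : B ∈ F) (hC : C ∈ F) (hABC : A ∩ B ∩ C = ∅)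
    (c a b : ℕ) (hc : (A ∩ B).card = c) (ha : (A ∩ C).card = a) (hb : (B ∩ C).card = b)
    (hba : b ≤ a) (hac : a ≤ c) (h48 : 100 * c < 48 * k) (h2 : 2 * a + c + t ≤ 2 * k + 1) :
    False := by
  by_cases h37 : 100 * a ≤ 37 * k
  · by_cases h61 : 100 * (a + b) ≤ 61 * k
    · exact win1 F hF k t hk H A B C hA hB hC hABC c a b hc ha hb (by omega) (by omega)
        (by omega) (by omega) (by omega) (by omega) (by omega) (by omega)
    · -- second structure
      have hu : ∃ ua ub uc : ℕ, ua ≤ a ∧ ub ≤ b ∧ uc ≤ c ∧ b + ua + uc + k ≤ t + c + a ∧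
          a + ub + uc + k ≤ t + c + b ∧ c + ua + ub + k ≤ t + a + b ∧
          a + b + c ≤ t + (ua + ub + uc) := by
        by_cases h : a + b + c - t ≤ t + c + b - a - k
        · exact ⟨0, 0, a + b + c - t, by omega, by omega, by omega, by omega, by omega, by omega,
            by omega⟩
        · exact ⟨(a + b + c - t) - (t + c + b - a - k), 0, t + c + b - a - k, by omega, by omega,
            by omega, by omega, by omega, by omega, by omega⟩
      obtain ⟨ua, ub, uc, e1, e2, e3, e4, e5, e6, e7⟩ := hu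
      exact win2 F hF k t hk H A B C hA hB hC hABC c a b hc ha hb ua ub uc e1 e2 e3 e4 e5 e6 e7
  · by_cases h17 : 17 * k ≤ 100 * b
    · have hu : ∃ ua ub uc : ℕ, ua ≤ a ∧ ub ≤ b ∧ uc ≤ c ∧ b + ua + uc + k ≤ t + c + a ∧
          a + ub + uc + k ≤ t + c + b ∧ c + ua + ub + k ≤ t + a + b ∧
          a + b + c ≤ t + (ua + ub + uc) := by
        obtain ⟨v, hv⟩ : ∃ v : ℕ, v = k + 2 * b - 2 * t := ⟨_, rfl⟩
        by_cases h : a + b + c - t - v ≤ t + c + b - a - k - v
        · exact ⟨0, v, a + b + c - t - v, by omega, by omega, by omega, by omega, by omega,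
            by omega, by omega⟩
        · exact ⟨(a + b + c - t - v) - (t + c + b - a - k - v), v, t + c + b - a - k - v,
            by omega, by omega, by omega, by omega, by omega, by omega, by omega⟩
      obtain ⟨ua, ub, uc, e1, e2, e3, e4, e5, e6, e7⟩ := hu
      exact win2 F hF k t hk H A B C hA hB hC hABC c a b hc ha hb ua ub uc e1 e2 e3 e4 e5 e6 e7
    · by_cases h3 : 3 * k ≤ 100 * b
      · exact win3 F hF k t hk H A B C hA hB hC hABC c a b hc ha hb
          (k + a - (t + b + c)) (k + c - (t + a + b)) (by omega) (by omega) (by omega)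
          (by omega) (by omega) (by omega)
      · exact win4 F hF k t hk H A B C hA hB hC hABC c a b hc ha hb
          (k / 25 + 1) (k / 50 + 1) (by omega) (by omega) (by omega) (by omega) (by omega)
          (by omega) (by omega)

end Pool.Agent.TW17
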