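import Pool.Agent.TW17.End

set_option autoImplicit false

namespace Pool.Agent.TW17

open Pool.Agent.TV17

lemma exists_max (P : ℕ → Prop) (N n₀ : ℕ) (h0 : P n₀) (hN : ∀ n, P n → n ≤ N) :
    ∃ n, P n ∧ ∀ m, P m → m ≤ n := by
  classical
  refine ⟨Nat.findGreatest P N, Nat.findGreatest_spec (hN n₀ h0) h0, fun m hm => ?_⟩
  exact Nat.le_findGreatest (hN m hm) hm

/-- one step: a member far from both members of the extremal pair -/
lemma step (F : Set (Finset ℕ)) (k t : ℕ)
    (hk : ∀ A ∈ F, A.card = k) (H : Missed F t) (htk : t ≤ k)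
    (c : ℕ) (A B : Finset ℕ) (hA : A ∈ F) (hB : B ∈ F) (hc : (A ∩ B).card = c) (hct : c ≤ t)
    (x y : ℕ) (hxy : c + x + y ≤ t) :
    ∃ C ∈ F, A ∩ B ∩ C = ∅ ∧ (A ∩ C).card + c + x ≤ k ∧ (B ∩ C).card + c + y ≤ k := by
  classical
  have cA := hk A hA
  have cB := hk B hB
  have h1 : (A \ B).card + c = k := by
    rw [← hc, ← cA]; exact Finset.card_sdiff_add_card_inter _ _
  have h2 : (B \ A).card + c = k := by
    rw [← hc, ← cB, Finset.inter_comm]; exact Finset.card_sdiff_add_card_inter _ _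
  obtain ⟨X, hX, hXc⟩ := Finset.exists_subset_card_eq (s := A \ B) (n := x) (by omega)
  obtain ⟨Y, hY, hYc⟩ := Finset.exists_subset_card_eq (s := B \ A) (n := y) (by omega)
  obtain ⟨C, hC, mC⟩ := H ((A ∩ B) ∪ (X ∪ Y)) (by
    have := card_un2 _ _ _ _ hc.le (card_un2 _ _ _ _ hXc.le hYc.le)
    omega)
  have e : ∀ z ∈ C, z ∈ A → z ∉ B := fun z hz h1 h2 => mC z (by simp [h1, h2]) hz
  refine ⟨C, hC, ?_, ?_, ?_⟩
  · rw [Finset.eq_empty_iff_forall_notMem]
    intro z hz
    simp only [Finset.mem_inter] at hz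
    exact e z hz.2 hz.1.1 hz.1.2
  · have h3 : A ∩ C ⊆ (A \ B) ∩ C := by
      intro z hz
      rw [Finset.mem_inter] at hz
      exact Finset.mem_inter.2 ⟨Finset.mem_sdiff.2 ⟨hz.1, e z hz.2 hz.1⟩, hz.2⟩
    have h4 := Finset.card_le_card h3
    have h5 := inter_card_le (A \ B) C X hX fun z hz => mC z (by simp [hz])
    omega
  · have h3 : B ∩ C ⊆ (B \ A) ∩ C := by
      intro z hz
      rw [Finset.mem_inter] at hz
      exact Finset.mem_inter.2 ⟨Finset.mem_sdiff.2 ⟨hz.1, fun h => e z hz.2 h hz.1⟩, hz.2⟩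
    have h4 := Finset.card_le_card h3
    have h5 := inter_card_le (B \ A) C Y hY fun z hz => mC z (by simp [hz])
    omega

theorem impossible (F : Set (Finset ℕ)) (hF : SevenTwoCoverable F) (k t : ℕ)
    (hk : ∀ A ∈ F, A.card = k) (H : Missed F t) (ht : 87 * k + 401 ≤ 100 * t) : False := by
  classical
  obtain ⟨A0, hA0, -⟩ := H ∅ (by simp)
  rcases Nat.lt_or_ge k t with hkt | htk
  · -- t > k
    have H' : Missed F k := fun T hT => H T (by omega)
    obtain ⟨B, hB, mB⟩ := H' A0 (hk A0 hA0).le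
    have hAB : (A0 ∩ B).card = 0 := by
      rw [Finset.card_eq_zero, Finset.eq_empty_iff_forall_notMem]
      intro z hz
      rw [Finset.mem_inter] at hz
      exact mB z hz.1 hz.2
    obtain ⟨C, hC, hABC, h1, h2⟩ := step F k k hk H' le_rfl 0 A0 B hA0 hB hAB (Nat.zero_le _)
      (k / 2) (k - k / 2) (by omega)
    exact win1 F hF k t hk H A0 B C hA0 hB hC hABC 0 (A0 ∩ C).card (B ∩ C).card hAB rfl rfl
      (by omega) (by omega) (by omega) (by omega) (by omega) (by omega) (by omega) (by omega)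
  · -- t ≤ k
    have cA0 := hk A0 hA0
    obtain ⟨T0, hT0, hT0c⟩ := Finset.exists_subset_card_eq (s := A0) (n := t) (by omega)
    obtain ⟨B0, hB0, mB0⟩ := H T0 hT0c.le
    have h0 := inter_card_le A0 B0 T0 hT0 mB0
    obtain ⟨c, ⟨A, hA, B, hB, hc, hc48⟩, hcmax⟩ := exists_max
      (fun n => ∃ A ∈ F, ∃ B ∈ F, (A ∩ B).card = n ∧ 100 * n < 48 * k) k (A0 ∩ B0).card
      ⟨A0, hA0, B0, hB0, rfl, by omega⟩ (by
        rintro n ⟨A, hA, B, hB, rfl, h⟩
        omega)
    have hmax : ∀ A ∈ F, ∀ B ∈ F, 100 * (A ∩ B).card < 48 * k → (A ∩ B).card ≤ c :=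
      fun A hA B hB h => hcmax _ ⟨A, hA, B, hB, rfl, h⟩
    by_cases hcase : 104 * k + 100 < 100 * (t + c)
    · obtain ⟨C, hC, hABC, h1, h2⟩ := step F k t hk H htk c A B hA hB hc (by omega)
        ((t - c) / 2) ((t - c) / 2) (by omega)
      have h3 : (A ∩ C).card ≤ c := hmax A hA C hC (by omega)
      have h4 : (B ∩ C).card ≤ c := hmax B hB C hC (by omega)
      rcases le_total (B ∩ C).card (A ∩ C).card with h | h
      · exact far_case F hF k t hk H ht htk A B C hA hB hC hABC c _ _ hc rfl rfl h h3 hc48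
          (by omega)
      · have hBAC : B ∩ A ∩ C = ∅ := by rw [Finset.inter_comm B A]; exact hABC
        exact far_case F hF k t hk H ht htk B A C hB hA hC hBAC c _ _
          (by rw [Finset.inter_comm]; exact hc) rfl rfl h h4 hc48 (by omega)
    · exact end_case F hF k t hk H ht htk c hmax A B hA hB hc (by omega)

/-- Every 7-wise 2-coverable family of `k`-sets has a transversal of size at most
`0.87 k + 5`. -/
theorem general_bound (k : ℕ) (F : Set (Finset ℕ)) (hk : ∀ A ∈ F, A.card = k)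
    (hF : SevenTwoCoverable F) :
    ∃ T : Finset ℕ, 100 * T.card ≤ 87 * k + 500 ∧ ∀ A ∈ F, ∃ x ∈ T, x ∈ A := by
  by_contra hcon
  push Not at hcon
  refine impossible F hF k ((87 * k + 500) / 100) hk ?_ (by omega)
  intro T hT
  obtain ⟨A, hA, h⟩ := hcon T (by omega)
  exact ⟨A, hA, fun z hz => h z hz⟩

end Pool.Agent.TW17
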