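import Pool.Agent.TW17.Far

set_option autoImplicit false

namespace Pool.Agent.TW17

open Pool.Agent.TV17

lemma logic (xa1 xa2 xa3 xb1 xb2 xb3 xd ya1 ya2 ya3 yb1 yb2 yb3 yd : Prop)
    (x1 : ¬(xa1 ∧ xa2 ∧ xb1)) (x2 : ¬(xa1 ∧ xa2 ∧ xb2)) (x3 : ¬(xa1 ∧ xa2 ∧ xb3))
    (x4 : ¬(xa1 ∧ xb1 ∧ xb2)) (x5 : ¬(xa2 ∧ xb1 ∧ xb2))
    (x6 : ¬(xa1 ∧ xa3 ∧ xb1)) (x7 : ¬(xa1 ∧ xa3 ∧ xb2)) (x8 : ¬(xa2 ∧ xa3 ∧ xb1))
    (x9 : ¬(xa2 ∧ xa3 ∧ xb2)) (x10 : ¬(xa3 ∧ xb1 ∧ xb2 ∧ xb3))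
    (x11 : ¬(xa1 ∧ xa2 ∧ xa3 ∧ xd)) (x12 : ¬(xb1 ∧ xb2 ∧ xb3 ∧ xd))
    (y1 : ¬(ya1 ∧ ya2 ∧ yb1)) (y2 : ¬(ya1 ∧ ya2 ∧ yb2)) (y3 : ¬(ya1 ∧ ya2 ∧ yb3))
    (y4 : ¬(ya1 ∧ yb1 ∧ yb2)) (y5 : ¬(ya2 ∧ yb1 ∧ yb2))
    (y6 : ¬(ya1 ∧ ya3 ∧ yb1)) (y7 : ¬(ya1 ∧ ya3 ∧ yb2)) (y8 : ¬(ya2 ∧ ya3 ∧ yb1))
    (y9 : ¬(ya2 ∧ ya3 ∧ yb2)) (y10 : ¬(ya3 ∧ yb1 ∧ yb2 ∧ yb3))
    (y11 : ¬(ya1 ∧ ya2 ∧ ya3 ∧ yd)) (y12 : ¬(yb1 ∧ yb2 ∧ yb3 ∧ yd))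
    (c1 : xa1 ∨ ya1) (c2 : xa2 ∨ ya2) (c3 : xa3 ∨ ya3) (c4 : xb1 ∨ yb1) (c5 : xb2 ∨ yb2)
    (c6 : xb3 ∨ yb3) (c7 : xd ∨ yd) : False := by
  grind

lemma inter_card_le (A D S : Finset ℕ) (hS : S ⊆ A) (hD : ∀ z ∈ S, z ∉ D) :
    (A ∩ D).card + S.card ≤ A.card := by
  classical
  have h1 : (A ∩ D) ⊆ A \ S := by
    intro z hz
    rw [Finset.mem_inter] at hz
    exact Finset.mem_sdiff.2 ⟨hz.1, fun h => hD z h hz.2⟩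
  have h2 := Finset.card_le_card h1
  have h3 := Finset.card_sdiff_add_card_eq_card hS
  omega

/-- `A2`: misses `A ∩ B`, `g` points of `B` and `t - g` points of `A \ B`. -/
lemma stepA2 (F : Set (Finset ℕ)) (k t : ℕ) (hk : ∀ A ∈ F, A.card = k) (H : Missed F t)
    (A B : Finset ℕ) (hA : A ∈ F) (hB : B ∈ F) (c g : ℕ) (hc : (A ∩ B).card = c)
    (h1 : c ≤ g) (h2 : g ≤ t) (h3 : t - g + c ≤ k) (h4 : g ≤ k) :
    ∃ A' ∈ F, (∀ z ∈ A, z ∈ A' → z ∉ B) ∧ (A ∩ A').card + (t - g) + c ≤ k ∧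
      (B ∩ A').card + g ≤ k := by
  classical
  have cA := hk A hA
  have cB := hk B hB
  obtain ⟨S, hSa, hSb, hSc⟩ := between (A ∩ B) B g Finset.inter_subset_right (by omega)
    (by omega)
  have hd : (A \ B).card + c = k := by
    rw [← hc, ← cA]; exact Finset.card_sdiff_add_card_inter _ _
  obtain ⟨Y, hY, hYc⟩ := Finset.exists_subset_card_eq (s := A \ B) (n := t - g) (by omega)
  obtain ⟨A', hA', mA'⟩ := H (S ∪ Y) (by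
    have := card_un2 _ _ _ _ hSc.le hYc.le
    omega)
  have e : ∀ z ∈ A, z ∈ A' → z ∉ B := by
    intro z h1 h2 h3
    exact mA' z (by simp [hSa (Finset.mem_inter.2 ⟨h1, h3⟩)]) h2
  refine ⟨A', hA', e, ?_, ?_⟩
  · have h1 : A ∩ A' ⊆ (A \ B) ∩ A' := by
      intro z hz
      rw [Finset.mem_inter] at hz
      exact Finset.mem_inter.2 ⟨Finset.mem_sdiff.2 ⟨hz.1, e z hz.1 hz.2⟩, hz.2⟩
    have h2 := Finset.card_le_card h1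
    have h3 := inter_card_le (A \ B) A' Y hY fun z hz => mA' z (by simp [hz])
    omega
  · have := inter_card_le B A' S hSb fun z hz => mA' z (by simp [hz])
    omega

/-- `B2` -/
lemma stepB2 (F : Set (Finset ℕ)) (k t : ℕ) (hk : ∀ A ∈ F, A.card = k) (H : Missed F t)
    (A1 A2 B1 : Finset ℕ) (hA1 : A1 ∈ F) (hA2 : A2 ∈ F) (hB1 : B1 ∈ F)
    (al c c21 ma mb m g : ℕ) (e121 : ∀ z ∈ A1, z ∈ A2 → z ∉ B1)
    (hal : (A1 ∩ A2).card = al) (hc : (A1 ∩ B1).card = c) (hc21 : (B1 ∩ A2).card = c21)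
    (h1 : al + c ≤ ma) (h2 : g ≤ ma) (h3 : al + c21 ≤ mb) (h4 : g ≤ mb) (h5 : ma ≤ k)
    (h6 : mb ≤ k) (h7 : m + al + c + c21 = ma + mb) (h8 : m ≤ t) (h9 : c + c21 ≤ t - m)
    (h10 : t - m ≤ k) :
    ∃ B2 ∈ F, (∀ z ∈ A1, z ∈ A2 → z ∉ B2) ∧
      (∀ z, z ∈ A1 ∨ z ∈ A2 → z ∈ B1 → z ∉ B2) ∧ (A1 ∩ B2).card + g ≤ k ∧
      (A2 ∩ B2).card + g ≤ k ∧ (B1 ∩ B2).card + (t - m) ≤ k := by
  classical
  have cA1 := hk A1 hA1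
  have cA2 := hk A2 hA2
  have cB1 := hk B1 hB1
  have hdj1 : Disjoint (A1 ∩ A2) (A1 ∩ B1) := by
    rw [Finset.disjoint_left]
    intro z hz hz'
    rw [Finset.mem_inter] at hz hz'
    exact e121 z hz.1 hz.2 hz'.2
  have hdj2 : Disjoint (A1 ∩ A2) (B1 ∩ A2) := by
    rw [Finset.disjoint_left]
    intro z hz hz'
    rw [Finset.mem_inter] at hz hz'
    exact e121 z hz.1 hz.2 hz'.1
  have hdj3 : Disjoint (A1 ∩ B1) (B1 ∩ A2) := by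
    rw [Finset.disjoint_left]
    intro z hz hz'
    rw [Finset.mem_inter] at hz hz'
    exact e121 z hz.1 hz'.2 hz.2
  have hu1 : ((A1 ∩ A2) ∪ (A1 ∩ B1)).card = al + c := by
    rw [Finset.card_union_of_disjoint hdj1, hal, hc]
  have hu2 : ((A1 ∩ A2) ∪ (B1 ∩ A2)).card = al + c21 := by
    rw [Finset.card_union_of_disjoint hdj2, hal, hc21]
  have hK1e : (A1 ∪ A2) ∩ B1 = (A1 ∩ B1) ∪ (B1 ∩ A2) := by
    ext z; simp; tauto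
  have hK1 : ((A1 ∪ A2) ∩ B1).card = c + c21 := by
    rw [hK1e, Finset.card_union_of_disjoint hdj3, hc, hc21]
  obtain ⟨SA, hSAa, hSAb, hSAc⟩ := between ((A1 ∩ A2) ∪ (A1 ∩ B1)) A1 ma
    (Finset.union_subset Finset.inter_subset_left Finset.inter_subset_left)
    (by rw [hu1]; exact h1) (by rw [cA1]; exact h5)
  obtain ⟨SB, hSBa, hSBb, hSBc⟩ := between ((A1 ∩ A2) ∪ (B1 ∩ A2)) A2 mb
    (Finset.union_subset Finset.inter_subset_right Finset.inter_subset_right)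
    (by rw [hu2]; exact h3) (by rw [cA2]; exact h6)
  have hSAB : (SA ∪ SB).card + al ≤ ma + mb := by
    have h1 := Finset.card_union_add_card_inter SA SB
    have h2 : (A1 ∩ A2) ⊆ SA ∩ SB :=
      Finset.subset_inter (Finset.subset_union_left.trans hSAa)
        (Finset.subset_union_left.trans hSBa)
    have h3 := Finset.card_le_card h2
    rw [hal] at h3
    rw [hSAc, hSBc] at h1
    omega
  obtain ⟨R2, hR2a, hR2b, hR2c⟩ := between ((A1 ∪ A2) ∩ B1) B1 (t - m)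
    Finset.inter_subset_right (by rw [hK1]; exact h9) (by rw [cB1]; exact h10)
  obtain ⟨B2, hB2, mB2⟩ := H ((SA ∪ SB) ∪ R2) (by
    have h1 : (SA ∪ SB) ∪ R2 ⊆ (SA ∪ SB) ∪ (R2 \ ((A1 ∪ A2) ∩ B1)) := by
      intro z hz
      by_cases hzK : z ∈ (A1 ∪ A2) ∩ B1
      · rw [hK1e, Finset.mem_union] at hzK
        apply Finset.mem_union_left
        rcases hzK with h | h
        · exact Finset.mem_union_left _ (hSAa (Finset.mem_union_right _ h))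
        · exact Finset.mem_union_right _ (hSBa (Finset.mem_union_right _ h))
      · rcases Finset.mem_union.1 hz with h | h
        · exact Finset.mem_union_left _ h
        · exact Finset.mem_union_right _ (Finset.mem_sdiff.2 ⟨h, hzK⟩)
    have h2 := Finset.card_le_card h1
    have h3 := Finset.card_union_le (SA ∪ SB) (R2 \ ((A1 ∪ A2) ∩ B1))
    have h4 := Finset.card_sdiff_add_card_eq_card hR2a
    rw [hK1, hR2c] at h4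
    clear hdj1 hdj2 hdj3 hu1 hu2 hK1e hSAa hSAb hSBa hSBb hR2a hR2b
    omega)
  refine ⟨B2, hB2, ?_, ?_, ?_, ?_, ?_⟩
  · intro z h1 h2 h3
    exact mB2 z (by
      have : z ∈ SA := hSAa (Finset.mem_union_left _ (Finset.mem_inter.2 ⟨h1, h2⟩))
      simp [this]) h3
  · intro z h1 h2 h3
    exact mB2 z (by
      have : z ∈ R2 := hR2a (by simp [h1, h2])
      simp [this]) h3
  · have := inter_card_le A1 B2 SA hSAb fun z hz => mB2 z (by simp [hz])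
    rw [hSAc, cA1] at this
    omega
  · have := inter_card_le A2 B2 SB hSBb fun z hz => mB2 z (by simp [hz])
    rw [hSBc, cA2] at this
    omega
  · have := inter_card_le B1 B2 R2 hR2b fun z hz => mB2 z (by simp [hz])
    rw [hR2c, cB1] at this
    exact this

/-- `A3` -/
lemma stepA3 (F : Set (Finset ℕ)) (k t : ℕ) (hk : ∀ A ∈ F, A.card = k) (H : Missed F t)
    (A1 A2 B1 B2 : Finset ℕ) (hB1 : B1 ∈ F) (al c g n3 : ℕ)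
    (hal : (A1 ∩ A2).card = al) (hK1 : ((A1 ∪ A2) ∩ B1).card ≤ g)
    (hK2 : ((A1 ∪ A2) ∩ B2).card ≤ 2 * c) (h1 : g ≤ k) (h2 : n3 ≤ al)
    (h3 : g + 2 * c + n3 ≤ t) :
    ∃ A3 ∈ F, (∀ z, z ∈ A1 ∨ z ∈ A2 → z ∈ B1 → z ∉ A3) ∧
      (∀ z, z ∈ A1 ∨ z ∈ A2 → z ∈ B2 → z ∉ A3) ∧ (B1 ∩ A3).card + g ≤ k ∧
      ((A1 ∩ A2) ∩ A3).card + n3 ≤ al := by
  classical
  have cB1 := hk B1 hB1
  obtain ⟨R3, hR3a, hR3b, hR3c⟩ := between ((A1 ∪ A2) ∩ B1) B1 g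
    Finset.inter_subset_right hK1 (by rw [cB1]; exact h1)
  obtain ⟨Y3, hY3, hY3c⟩ := Finset.exists_subset_card_eq (s := A1 ∩ A2) (n := n3)
    (by rw [hal]; exact h2)
  obtain ⟨A3, hA3, mA3⟩ := H (R3 ∪ ((A1 ∪ A2) ∩ B2) ∪ Y3) (by
    have := card_un2 _ _ _ _ (card_un2 _ _ _ _ hR3c.le hK2) hY3c.le
    omega)
  refine ⟨A3, hA3, ?_, ?_, ?_, ?_⟩
  · intro z h1 h2 h3
    exact mA3 z (by
      have : z ∈ R3 := hR3a (by simp [h1, h2])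
      simp [this]) h3
  · intro z h1 h2 h3
    exact mA3 z (by simp [h1, h2]) h3
  · have := inter_card_le B1 A3 R3 hR3b fun z hz => mA3 z (by simp [hz])
    omega
  · have := inter_card_le (A1 ∩ A2) A3 Y3 hY3 fun z hz => mA3 z (by simp [hz])
    omega

/-- `B3` -/
lemma stepB3 (F : Set (Finset ℕ)) (t : ℕ) (H : Missed F t)
    (A1 A2 A3 B1 B2 : Finset ℕ) (al be n4 : ℕ)
    (hal : (A1 ∩ A2).card = al) (hbe : (B1 ∩ B2).card = be) (h1 : n4 ≤ be)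
    (h2 : ((B1 ∩ A3) ∩ (B1 ∩ B2)).card ≤ n4) (h3 : al + n4 ≤ t) :
    ∃ B3 ∈ F, (∀ z ∈ A1, z ∈ A2 → z ∉ B3) ∧ (∀ z ∈ A3, z ∈ B1 → z ∈ B2 → z ∉ B3) ∧
      ((B1 ∩ B2) ∩ B3).card + n4 ≤ be := by
  classical
  obtain ⟨R4, hR4a, hR4b, hR4c⟩ := between ((B1 ∩ A3) ∩ (B1 ∩ B2)) (B1 ∩ B2) n4
    Finset.inter_subset_right h2 (by omega)
  obtain ⟨B3, hB3, mB3⟩ := H ((A1 ∩ A2) ∪ R4) (by
    have := card_un2 _ _ _ _ hal.le hR4c.le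
    omega)
  refine ⟨B3, hB3, ?_, ?_, ?_⟩
  · intro z h1 h2 h3
    exact mB3 z (by simp [h1, h2]) h3
  · intro z h1 h2 h3 h4
    exact mB3 z (by
      have : z ∈ R4 := hR4a (by simp [h1, h2, h3])
      simp [this]) h4
  · have := inter_card_le (B1 ∩ B2) B3 R4 hR4b fun z hz => mB3 z (by simp [hz])
    omega

/-- `D` and the contradiction -/
lemma stepD (F : Set (Finset ℕ)) (hF : SevenTwoCoverable F) (t : ℕ) (H : Missed F t)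
    (A1 A2 A3 B1 B2 B3 : Finset ℕ) (hA1 : A1 ∈ F) (hA2 : A2 ∈ F) (hA3 : A3 ∈ F)
    (hB1 : B1 ∈ F) (hB2 : B2 ∈ F) (hB3 : B3 ∈ F)
    (e121 : ∀ z ∈ A1, z ∈ A2 → z ∉ B1) (e122 : ∀ z ∈ A1, z ∈ A2 → z ∉ B2)
    (e123 : ∀ z ∈ A1, z ∈ A2 → z ∉ B3)
    (eB : ∀ z, z ∈ A1 ∨ z ∈ A2 → z ∈ B1 → z ∉ B2)
    (eA31 : ∀ z, z ∈ A1 ∨ z ∈ A2 → z ∈ B1 → z ∉ A3)
    (eA32 : ∀ z, z ∈ A1 ∨ z ∈ A2 → z ∈ B2 → z ∉ A3)
    (e3 : ∀ z ∈ A3, z ∈ B1 → z ∈ B2 → z ∉ B3)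
    (h : ((A1 ∩ A2) ∩ A3).card + ((B1 ∩ B2) ∩ B3).card ≤ t) : False := by
  classical
  obtain ⟨D, hD, mD⟩ := H (((A1 ∩ A2) ∩ A3) ∪ ((B1 ∩ B2) ∩ B3))
    ((Finset.card_union_le _ _).trans h)
  have eDA : ∀ z ∈ D, ¬(z ∈ A1 ∧ z ∈ A2 ∧ z ∈ A3) := by
    intro z hz h
    exact mD z (by simp [h.1, h.2.1, h.2.2]) hz
  have eDB : ∀ z ∈ D, ¬(z ∈ B1 ∧ z ∈ B2 ∧ z ∈ B3) := by
    intro z hz h
    exact mD z (by simp [h.1, h.2.1, h.2.2]) hz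
  obtain ⟨x, y, hxy⟩ := hF {A1, A2, A3, B1, B2, B3, D} (by
      intro S hS
      simp only [Finset.coe_insert, Finset.coe_singleton, Set.mem_insert_iff,
        Set.mem_singleton_iff] at hS
      rcases hS with rfl | rfl | rfl | rfl | rfl | rfl | rfl <;> assumption)
    ((Finset.card_insert_le _ _).trans (Nat.succ_le_succ Finset.card_le_six))
  exact logic (x ∈ A1) (x ∈ A2) (x ∈ A3) (x ∈ B1) (x ∈ B2) (x ∈ B3) (x ∈ D)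
    (y ∈ A1) (y ∈ A2) (y ∈ A3) (y ∈ B1) (y ∈ B2) (y ∈ B3) (y ∈ D)
    (fun h => e121 x h.1 h.2.1 h.2.2) (fun h => e122 x h.1 h.2.1 h.2.2)
    (fun h => e123 x h.1 h.2.1 h.2.2) (fun h => eB x (Or.inl h.1) h.2.1 h.2.2)
    (fun h => eB x (Or.inr h.1) h.2.1 h.2.2) (fun h => eA31 x (Or.inl h.1) h.2.2 h.2.1)
    (fun h => eA32 x (Or.inl h.1) h.2.2 h.2.1) (fun h => eA31 x (Or.inr h.1) h.2.2 h.2.1)
    (fun h => eA32 x (Or.inr h.1) h.2.2 h.2.1) (fun h => e3 x h.1 h.2.1 h.2.2.1 h.2.2.2)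
    (fun h => eDA x h.2.2.2 ⟨h.1, h.2.1, h.2.2.1⟩) (fun h => eDB x h.2.2.2 ⟨h.1, h.2.1, h.2.2.1⟩)
    (fun h => e121 y h.1 h.2.1 h.2.2) (fun h => e122 y h.1 h.2.1 h.2.2)
    (fun h => e123 y h.1 h.2.1 h.2.2) (fun h => eB y (Or.inl h.1) h.2.1 h.2.2)
    (fun h => eB y (Or.inr h.1) h.2.1 h.2.2) (fun h => eA31 y (Or.inl h.1) h.2.2 h.2.1)
    (fun h => eA32 y (Or.inl h.1) h.2.2 h.2.1) (fun h => eA31 y (Or.inr h.1) h.2.2 h.2.1)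
    (fun h => eA32 y (Or.inr h.1) h.2.2 h.2.1) (fun h => e3 y h.1 h.2.1 h.2.2.1 h.2.2.2)
    (fun h => eDA y h.2.2.2 ⟨h.1, h.2.1, h.2.2.1⟩) (fun h => eDB y h.2.2.2 ⟨h.1, h.2.1, h.2.2.1⟩)
    (hxy A1 (by simp)) (hxy A2 (by simp)) (hxy A3 (by simp)) (hxy B1 (by simp))
    (hxy B2 (by simp)) (hxy B3 (by simp)) (hxy D (by simp))

end Pool.Agent.TW17
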