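import Pool.Agent.TW17.Base

set_option autoImplicit false

namespace Pool.Agent.TW17

open Pool.Agent.TV17

lemma use3 {m : ℕ} (pat : Fin m → Finset (Fin 7)) (M : Fin 7 → Finset ℕ) (z : ℕ) (a : Fin m)
    (i j l : Fin 7) (h : pat a = {i, j, l}) (hi : z ∉ M i) (hj : z ∉ M j) (hl : z ∉ M l) :
    ∃ a, ∀ i ∈ pat a, z ∉ M i := by
  refine ⟨a, fun n hn => ?_⟩
  rw [h] at hn
  simp only [Finset.mem_insert, Finset.mem_singleton] at hn
  rcases hn with rfl | rfl | rfl <;> assumption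

lemma use4 {m : ℕ} (pat : Fin m → Finset (Fin 7)) (M : Fin 7 → Finset ℕ) (z : ℕ) (a : Fin m)
    (i j l n : Fin 7) (h : pat a = {i, j, l, n}) (hi : z ∉ M i) (hj : z ∉ M j) (hl : z ∉ M l)
    (hn : z ∉ M n) :
    ∃ a, ∀ i ∈ pat a, z ∉ M i := by
  refine ⟨a, fun q hq => ?_⟩
  rw [h] at hq
  simp only [Finset.mem_insert, Finset.mem_singleton] at hq
  rcases hq with rfl | rfl | rfl | rfl <;> assumption

def pat1 : Fin 11 → Finset (Fin 7) :=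
  ![{0, 3, 4}, {1, 3, 5}, {2, 4, 5, 6}, {1, 2, 3}, {1, 2, 4}, {0, 2, 3}, {0, 2, 5},
    {0, 1, 4}, {0, 1, 5}, {0, 1, 6}, {0, 1, 2}]

lemma meet1 : ∀ a b : Fin 11, ∃ i : Fin 7, i ∈ pat1 a ∧ i ∈ pat1 b := by decide

/-- First structure. -/
theorem win1 (F : Set (Finset ℕ)) (hF : SevenTwoCoverable F) (k t : ℕ)
    (hk : ∀ A ∈ F, A.card = k) (H : Missed F t) (A B C : Finset ℕ)
    (hA : A ∈ F) (hB : B ∈ F) (hC : C ∈ F) (hABC : A ∩ B ∩ C = ∅)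
    (c a b : ℕ) (hc : (A ∩ B).card = c) (ha : (A ∩ C).card = a) (hb : (B ∩ C).card = b)
    (h1 : 2 * b + k ≤ 2 * t) (h2 : 2 * a + k ≤ 2 * t) (h3 : a + b + 2 * k ≤ 3 * t)
    (h4 : 3 * c + k ≤ 3 * t) (h5 : c + 3 * k ≤ 4 * t)
    (h6 : a + b ≤ t) (h7 : b + c ≤ t) (h8 : a + c ≤ t) : False := by
  classical
  have rA := card_regions A B C hABC
  have rB := card_regions B A C (by rw [← hABC]; ext z; simp; tauto)
  have rC := card_regions C A B (by rw [← hABC]; ext z; simp; tauto)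
  rw [hk A hA, hc, ha] at rA
  rw [hk B hB, Finset.inter_comm B A, hc, hb] at rB
  rw [hk C hC, Finset.inter_comm C A, ha, Finset.inter_comm C B, hb] at rC
  set RA := A \ (B ∪ C) with hRA
  set RB := B \ (A ∪ C) with hRB
  set RC := C \ (A ∪ B) with hRC
  obtain ⟨x1, x2, y1, y3, z2, z3, hx, hy, hz, e1, e2, e3⟩ :=
    triangle RA.card RB.card (RC.card - (t - c)) (t - a - b) (t - b - c) (t - a - c)
      (by omega) (by omega) (by omega) (by omega)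
  obtain ⟨PA, QA, cA, -, -, pA, qA⟩ := split2 RA x1 x2 (by omega)
  obtain ⟨PB, QB, cB, -, -, pB, qB⟩ := split2 RB y1 y3 (by omega)
  obtain ⟨PC, QC, SC, cC, -, -, -, pC, qC, sC⟩ := split3 RC z2 z3 (t - c) (by omega)
  obtain ⟨D4, hD4F, hD4⟩ := H ((B ∩ C) ∪ (A ∩ C) ∪ (PA ∪ PB)) (by
    have := card_un2 _ _ _ _ (card_un2 _ _ _ _ hb.le ha.le) (card_un2 _ _ _ _ pA pB)
    omega)
  obtain ⟨D5, hD5F, hD5⟩ := H ((B ∩ C) ∪ (A ∩ B) ∪ (QA ∪ PC)) (by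
    have := card_un2 _ _ _ _ (card_un2 _ _ _ _ hb.le hc.le) (card_un2 _ _ _ _ qA pC)
    omega)
  obtain ⟨D6, hD6F, hD6⟩ := H ((A ∩ C) ∪ (A ∩ B) ∪ (QB ∪ QC)) (by
    have := card_un2 _ _ _ _ (card_un2 _ _ _ _ ha.le hc.le) (card_un2 _ _ _ _ qB qC)
    omega)
  obtain ⟨D7, hD7F, hD7⟩ := H ((A ∩ B) ∪ SC) (by
    have := card_un2 _ _ _ _ hc.le sC
    omega)
  refine no_pattern F hF ![A, B, C, D4, D5, D6, D7] ?_ pat1 meet1 ?_
  · intro i
    fin_cases i <;> assumption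
  intro z
  have u3 := use3 pat1 ![A, B, C, D4, D5, D6, D7] z
  have u4 := use4 pat1 ![A, B, C, D4, D5, D6, D7] z
  by_cases zA : z ∈ A <;> by_cases zB : z ∈ B <;> by_cases zC : z ∈ C
  · exfalso
    have : z ∈ A ∩ B ∩ C := by simp [zA, zB, zC]
    rw [hABC] at this
    simp at this
  · exact u4 2 2 4 5 6 rfl zC (hD5 z (by simp [zA, zB])) (hD6 z (by simp [zA, zB]))
      (hD7 z (by simp [zA, zB]))
  · exact u3 1 1 3 5 rfl zB (hD4 z (by simp [zA, zC])) (hD6 z (by simp [zA, zC]))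
  · rcases cA z (by simp [hRA, zA, zB, zC]) with h | h
    · exact u3 3 1 2 3 rfl zB zC (hD4 z (by simp [h]))
    · exact u3 4 1 2 4 rfl zB zC (hD5 z (by simp [h]))
  · exact u3 0 0 3 4 rfl zA (hD4 z (by simp [zB, zC])) (hD5 z (by simp [zB, zC]))
  · rcases cB z (by simp [hRB, zA, zB, zC]) with h | h
    · exact u3 5 0 2 3 rfl zA zC (hD4 z (by simp [h]))
    · exact u3 6 0 2 5 rfl zA zC (hD6 z (by simp [h]))
  · rcases cC z (by simp [hRC, zA, zB, zC]) with h | h | h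
    · exact u3 7 0 1 4 rfl zA zB (hD5 z (by simp [h]))
    · exact u3 8 0 1 5 rfl zA zB (hD6 z (by simp [h]))
    · exact u3 9 0 1 6 rfl zA zB (hD7 z (by simp [h]))
  · exact u3 10 0 1 2 rfl zA zB zC

end Pool.Agent.TW17
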