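import Pool.Agent.TW17.Win1

set_option autoImplicit false

namespace Pool.Agent.TW17

open Pool.Agent.TV17

def pat2 : Fin 10 → Finset (Fin 7) :=
  ![{0, 3, 4}, {0, 3, 5, 6}, {1, 4, 5}, {1, 3, 5, 6}, {2, 4, 6}, {2, 3, 5, 6}, {1, 2, 3},
    {0, 2, 5}, {0, 1, 6}, {0, 1, 2}]

lemma meet2 : ∀ a b : Fin 10, ∃ i : Fin 7, i ∈ pat2 a ∧ i ∈ pat2 b := by decide

/-- Second structure. -/
theorem win2 (F : Set (Finset ℕ)) (hF : SevenTwoCoverable F) (k t : ℕ)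
    (hk : ∀ A ∈ F, A.card = k) (H : Missed F t) (A B C : Finset ℕ)
    (hA : A ∈ F) (hB : B ∈ F) (hC : C ∈ F) (hABC : A ∩ B ∩ C = ∅)
    (c a b : ℕ) (hc : (A ∩ B).card = c) (ha : (A ∩ C).card = a) (hb : (B ∩ C).card = b)
    (ua ub uc : ℕ) (h1 : ua ≤ a) (h2 : ub ≤ b) (h3 : uc ≤ c)
    (h4 : b + ua + uc + k ≤ t + c + a) (h5 : a + ub + uc + k ≤ t + c + b)
    (h6 : c + ua + ub + k ≤ t + a + b) (h7 : a + b + c ≤ t + (ua + ub + uc)) : False := by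
  classical
  have rA := card_regions A B C hABC
  have rB := card_regions B A C (by rw [← hABC]; ext z; simp; tauto)
  have rC := card_regions C A B (by rw [← hABC]; ext z; simp; tauto)
  rw [hk A hA, hc, ha] at rA
  rw [hk B hB, Finset.inter_comm B A, hc, hb] at rB
  rw [hk C hC, Finset.inter_comm C A, ha, Finset.inter_comm C B, hb] at rC
  set RA := A \ (B ∪ C) with hRA
  set RB := B \ (A ∪ C) with hRB
  set RC := C \ (A ∪ B) with hRC
  obtain ⟨Pb, Qb, cb, -, -, pb, qb⟩ := split2 (B ∩ C) ub (b - ub) (by omega)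
  obtain ⟨Pa, Qa, ca, -, -, pa, qa⟩ := split2 (A ∩ C) ua (a - ua) (by omega)
  obtain ⟨Pc, Qc, cc, -, -, pc, qc⟩ := split2 (A ∩ B) uc (c - uc) (by omega)
  obtain ⟨D4, hD4F, hD4⟩ := H ((B ∩ C) ∪ RA ∪ (Pa ∪ Pc)) (by
    have := card_un2 _ _ _ _ (card_un2 _ _ _ _ hb.le (le_refl RA.card)) (card_un2 _ _ _ _ pa pc)
    omega)
  obtain ⟨D5, hD5F, hD5⟩ := H (Qb ∪ Qa ∪ Qc) (by
    have := card_un2 _ _ _ _ (card_un2 _ _ _ _ qb qa) qc
    omega)
  obtain ⟨D6, hD6F, hD6⟩ := H ((A ∩ C) ∪ RB ∪ (Pb ∪ Pc)) (by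
    have := card_un2 _ _ _ _ (card_un2 _ _ _ _ ha.le (le_refl RB.card)) (card_un2 _ _ _ _ pb pc)
    omega)
  obtain ⟨D7, hD7F, hD7⟩ := H ((A ∩ B) ∪ RC ∪ (Pa ∪ Pb)) (by
    have := card_un2 _ _ _ _ (card_un2 _ _ _ _ hc.le (le_refl RC.card)) (card_un2 _ _ _ _ pa pb)
    omega)
  refine no_pattern F hF ![A, B, C, D4, D5, D6, D7] ?_ pat2 meet2 ?_
  · intro i
    fin_cases i <;> assumption
  intro z
  have u3 := use3 pat2 ![A, B, C, D4, D5, D6, D7] z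
  have u4 := use4 pat2 ![A, B, C, D4, D5, D6, D7] z
  by_cases zA : z ∈ A <;> by_cases zB : z ∈ B <;> by_cases zC : z ∈ C
  · exfalso
    have : z ∈ A ∩ B ∩ C := by simp [zA, zB, zC]
    rw [hABC] at this
    simp at this
  · rcases cc z (by simp [zA, zB]) with h | h
    · exact u4 5 2 3 5 6 rfl zC (hD4 z (by simp [h])) (hD6 z (by simp [h]))
        (hD7 z (by simp [zA, zB]))
    · exact u3 4 2 4 6 rfl zC (hD5 z (by simp [h])) (hD7 z (by simp [zA, zB]))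
  · rcases ca z (by simp [zA, zC]) with h | h
    · exact u4 3 1 3 5 6 rfl zB (hD4 z (by simp [h])) (hD6 z (by simp [zA, zC]))
        (hD7 z (by simp [h]))
    · exact u3 2 1 4 5 rfl zB (hD5 z (by simp [h])) (hD6 z (by simp [zA, zC]))
  · exact u3 6 1 2 3 rfl zB zC (hD4 z (by simp [hRA, zA, zB, zC]))
  · rcases cb z (by simp [zB, zC]) with h | h
    · exact u4 1 0 3 5 6 rfl zA (hD4 z (by simp [zB, zC])) (hD6 z (by simp [h]))
        (hD7 z (by simp [h]))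
    · exact u3 0 0 3 4 rfl zA (hD4 z (by simp [zB, zC])) (hD5 z (by simp [h]))
  · exact u3 7 0 2 5 rfl zA zC (hD6 z (by simp [hRB, zA, zB, zC]))
  · exact u3 8 0 1 6 rfl zA zB (hD7 z (by simp [hRC, zA, zB, zC]))
  · exact u3 9 0 1 2 rfl zA zB zC

def pat3 : Fin 12 → Finset (Fin 7) :=
  ![{0, 3, 4}, {1, 3, 5}, {1, 4, 5}, {2, 3, 4, 6}, {1, 2, 3}, {1, 2, 4}, {0, 2, 3, 4},
    {0, 2, 5}, {0, 1, 3}, {0, 1, 4}, {0, 1, 6}, {0, 1, 2}]

lemma meet3 : ∀ a b : Fin 12, ∃ i : Fin 7, i ∈ pat3 a ∧ i ∈ pat3 b := by decide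

/-- Third structure. -/
theorem win3 (F : Set (Finset ℕ)) (hF : SevenTwoCoverable F) (k t : ℕ)
    (hk : ∀ A ∈ F, A.card = k) (H : Missed F t) (A B C : Finset ℕ)
    (hA : A ∈ F) (hB : B ∈ F) (hC : C ∈ F) (hABC : A ∩ B ∩ C = ∅)
    (c a b : ℕ) (hc : (A ∩ B).card = c) (ha : (A ∩ C).card = a) (hb : (B ∩ C).card = b)
    (q s : ℕ) (h1 : k + a ≤ t + b + c + q) (h2 : k + c ≤ t + a + b + s)
    (h3 : a ≤ t) (h4 : c ≤ t) (h5 : k + 2 * b + c + 2 * q + s ≤ 2 * t)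
    (h6 : b + c + q ≤ t) : False := by
  classical
  have rA := card_regions A B C hABC
  have rB := card_regions B A C (by rw [← hABC]; ext z; simp; tauto)
  have rC := card_regions C A B (by rw [← hABC]; ext z; simp; tauto)
  rw [hk A hA, hc, ha] at rA
  rw [hk B hB, Finset.inter_comm B A, hc, hb] at rB
  rw [hk C hC, Finset.inter_comm C A, ha, Finset.inter_comm C B, hb] at rC
  set RA := A \ (B ∪ C) with hRA
  set RB := B \ (A ∪ C) with hRB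
  set RC := C \ (A ∪ B) with hRC
  obtain ⟨PB, QB, cB, -, -, pB, qB⟩ := split2 RB (t - a) q (by omega)
  obtain ⟨PC, QC, cC, -, -, pC, qC⟩ := split2 RC (t - c) s (by omega)
  obtain ⟨P, Q, cW, -, -, pW, qW⟩ := split2 ((A ∩ C) ∪ RA ∪ QC) (t - (b + c + q)) (t - (b + c + q))
    (by
      have := card_un2 _ _ _ _ (card_un2 _ _ _ _ ha.le (le_refl RA.card)) qC
      omega)
  obtain ⟨D4, hD4F, hD4⟩ := H ((B ∩ C) ∪ (A ∩ B) ∪ (QB ∪ P)) (by
    have := card_un2 _ _ _ _ (card_un2 _ _ _ _ hb.le hc.le) (card_un2 _ _ _ _ qB pW)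
    omega)
  obtain ⟨D5, hD5F, hD5⟩ := H ((B ∩ C) ∪ (A ∩ B) ∪ (QB ∪ Q)) (by
    have := card_un2 _ _ _ _ (card_un2 _ _ _ _ hb.le hc.le) (card_un2 _ _ _ _ qB qW)
    omega)
  obtain ⟨D6, hD6F, hD6⟩ := H ((A ∩ C) ∪ PB) (by
    have := card_un2 _ _ _ _ ha.le pB
    omega)
  obtain ⟨D7, hD7F, hD7⟩ := H ((A ∩ B) ∪ PC) (by
    have := card_un2 _ _ _ _ hc.le pC
    omega)
  refine no_pattern F hF ![A, B, C, D4, D5, D6, D7] ?_ pat3 meet3 ?_
  · intro i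
    fin_cases i <;> assumption
  intro z
  have u3 := use3 pat3 ![A, B, C, D4, D5, D6, D7] z
  have u4 := use4 pat3 ![A, B, C, D4, D5, D6, D7] z
  by_cases zA : z ∈ A <;> by_cases zB : z ∈ B <;> by_cases zC : z ∈ C
  · exfalso
    have : z ∈ A ∩ B ∩ C := by simp [zA, zB, zC]
    rw [hABC] at this
    simp at this
  · exact u4 3 2 3 4 6 rfl zC (hD4 z (by simp [zA, zB])) (hD5 z (by simp [zA, zB]))
      (hD7 z (by simp [zA, zB]))
  · rcases cW z (by simp [zA, zC]) with h | h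
    · exact u3 1 1 3 5 rfl zB (hD4 z (by simp [h])) (hD6 z (by simp [zA, zC]))
    · exact u3 2 1 4 5 rfl zB (hD5 z (by simp [h])) (hD6 z (by simp [zA, zC]))
  · rcases cW z (by simp [hRA, zA, zB, zC]) with h | h
    · exact u3 4 1 2 3 rfl zB zC (hD4 z (by simp [h]))
    · exact u3 5 1 2 4 rfl zB zC (hD5 z (by simp [h]))
  · exact u3 0 0 3 4 rfl zA (hD4 z (by simp [zB, zC])) (hD5 z (by simp [zB, zC]))
  · rcases cB z (by simp [hRB, zA, zB, zC]) with h | h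
    · exact u3 7 0 2 5 rfl zA zC (hD6 z (by simp [h]))
    · exact u4 6 0 2 3 4 rfl zA zC (hD4 z (by simp [h])) (hD5 z (by simp [h]))
  · rcases cC z (by simp [hRC, zA, zB, zC]) with h | h
    · exact u3 10 0 1 6 rfl zA zB (hD7 z (by simp [h]))
    · rcases cW z (by simp [h]) with h | h
      · exact u3 8 0 1 3 rfl zA zB (hD4 z (by simp [h]))
      · exact u3 9 0 1 4 rfl zA zB (hD5 z (by simp [h]))
  · exact u3 11 0 1 2 rfl zA zB zC

end Pool.Agent.TW17
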